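import Pool.Agent.L5helper60.MR.Fin
import Pool.Agent.L5helper60.MR.Gen

set_option autoImplicit false

/-!
# Singularity of polynomial matrices of bounded modality

Definitions: `Inp`, `nv`, `dim`, `ent`, `ex`, `pol` are in `Pool.Agent.L5helper60.MQ.Defs`; `low` in
`Pool.Agent.L5helper60.MR.Defs`; `Modality` in `Pool.Agent.L5helper60.MR.Pub`; `MO.Modality` (modality
of a set of matrices) in `Pool.Agent.L5helper60.MO.Pub`; `PT` (computed in polynomial time) and `InP`
(decided in polynomial time) in `Pool.Agent.Lib.lead.CXDefs`.

We consider square matrices `M` of polynomials with rational coefficients, given by the lists of the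
terms of their entries, with exponents in unary. Invertible complex matrices `P`, `Q` and an
invertible affine substitution `z ↦ G z + b` are a symmetry if `P M(z) Q = M(G z + b)`. The matrix has
modality at most `c` modulo a set `R` of variables if, for all complex values of the variables, all
variables except those in `R` can be made to depend on at most `c` complex parameters by symmetries
which map the space of the vectors supported in `R` to itself. Here the variables in `R` must have
constant coefficient matrices of rank at most one (or at most three if `M` is symmetric). So the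
theorem is a common generalization of the case of matrices with a bounded number of orbits
(`R` empty) and of the case of coefficient matrices of rank one (all variables in `R`).

Algorithm. The infinitesimal symmetries are the solutions of a system of linear equations. Hence
the dimension of the tangent space of the orbit of a point can be computed. Local search: as long as
a change of at most `c + 1` variables increases the dimension of the tangent space modulo the
variables of small rank, make the change. Then try all changes of at most `c` variables, and compute
for each of them the best values of the variables of small rank. The symmetries are not computed.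

Proof. (1) If the modality is at most `c` then the tangent space at the point `x` found by the local
search has codimension at most `c` modulo the variables of small rank: if more than `c` unit vectors
were independent of it, we replace `c + 1` coordinates of `x` by algebraically independent numbers and
differentiate the symmetry which brings this point to a point which depends on `c` parameters, with a
derivation of the complex numbers over the field of these parameters. This gives a tangent vector in
the directions of these unit vectors, a contradiction. (2) The ideal generated by the minors of a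
given order is stable under the vector fields of the infinitesimal symmetries. If it vanishes on a
coordinate subspace through `x` which is transversal to them then it is zero: the order of vanishing
along generic lines through a generic point of this subspace is infinite, by a system of linear
differential equations of order one for the restrictions of the minors. So the largest rank is
attained on a slice, whose variables are `c` arbitrary ones and the variables of small rank.
-/

namespace Pool.Agent.Results.MP_08e617_lc.BoundedModality

open MvPolynomial
open Pool.Agent.L5helper60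
open Pool.Agent.L5helper60.MQ (Inp nv dim pol)
open Pool.Agent.L5helper60.MR (Modality low)
open Pool.Agent.Lib.CX (PT InP)

/-- Polynomial matrices of bounded modality.

(1) For every `c` there is a class `C` of square polynomial matrices over the rational numbers which
is decided in polynomial time and contains all matrices `M` whose modality is at most `c` modulo some
set `R` of variables of small rank, such that for matrices in `C` it is decided in polynomial time
whether the determinant is the zero polynomial, and such that a function computed in polynomial time
finds natural numbers for which the matrix has the largest rank among all complex values of the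
variables.
(2) The modality: it is at most the number of the variables outside of `R`; it is zero if all values
of the variables are equivalent under symmetries to values in a countable set, up to the coordinates
in `R`; it does not increase under maps `Φ` with `Φ (P A Q) = P₁ Φ(A) Q₁`, under surjective affine
substitutions, and it is subadditive for direct sums and tensor products. For linear matrices and
empty `R` it is at most the modality of the space of the values.
(3) Generic matrices and generic skew-symmetric matrices have modality zero. -/
theorem result :
    (∀ c : ℕ, ∃ (C : Inp → Prop) (sol : Inp → List ℕ), InP C ∧ PT sol ∧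
      (∀ (M : Inp) (R : Set (Fin (nv M))), R ⊆ low M →
        Modality (fun z : Fin (nv M) → ℂ => (pol M).map (aeval z)) R c → C M) ∧
      (InP fun M => C M ∧ (pol M).det = 0) ∧
      ∀ M, C M →
        (∀ z : Fin (nv M) → ℂ, ((pol M).map (aeval z)).rank ≤
          ((pol M).map (eval fun i : Fin (nv M) => (((sol M).getD i 0 : ℕ) : ℚ))).rank) ∧
        ((pol M).det = 0 ↔
          ((pol M).map (eval fun i : Fin (nv M) => (((sol M).getD i 0 : ℕ) : ℚ))).det = 0)) ∧
    (∀ (ι ι' τ τ' κ κ' : Type) [Fintype ι] [Fintype ι'] [Fintype τ] [Fintype τ'] [Fintype κ]
      [Fintype κ'] [DecidableEq ι] [DecidableEq ι'] [DecidableEq τ] [DecidableEq τ']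
      [DecidableEq κ] [DecidableEq κ'] (F : (κ → ℂ) → Matrix ι ι' ℂ) (R : Set κ),
      Modality F R Rᶜ.ncard ∧
      (∀ Y : Set (κ → ℂ), Y.Countable → (∀ y : κ → ℂ, ∃ (P : Matrix ι ι ℂ) (Q : Matrix ι' ι' ℂ)
        (G : Matrix κ κ ℂ) (b : κ → ℂ), IsUnit P ∧ IsUnit Q ∧ IsUnit G ∧
        (∀ i ∉ R, ∀ j ∈ R, G i j = 0) ∧ (∀ z : κ → ℂ, P * F z * Q = F (G.mulVec z + b)) ∧
        ∃ w ∈ Y, ∀ i ∉ R, (G.mulVec y + b) i = w i) → Modality F R 0) ∧
      (∀ c : ℕ, Modality F R c →
        (∀ Φ : Matrix ι ι' ℂ → Matrix τ τ' ℂ, (∀ (P : Matrix ι ι ℂ) (Q : Matrix ι' ι' ℂ),
          IsUnit P → IsUnit Q → ∃ (P₁ : Matrix τ τ ℂ) (Q₁ : Matrix τ' τ' ℂ), IsUnit P₁ ∧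
          IsUnit Q₁ ∧ ∀ A, Φ (P * A * Q) = P₁ * Φ A * Q₁) →
          Modality (fun z => Φ (F z)) R c) ∧
        (∀ (R' : Set κ') (H : Matrix κ κ' ℂ) (H₁ : Matrix κ' κ ℂ) (h : κ → ℂ), H * H₁ = 1 →
          (∀ i ∉ R, ∀ j ∈ R', H i j = 0) → (∀ i ∉ R', ∀ j ∈ R, H₁ i j = 0) →
          Modality (fun z : κ' → ℂ => F (H.mulVec z + h)) R' c) ∧
        (∀ (F' : (κ' → ℂ) → Matrix τ τ' ℂ) (R' : Set κ') (c' : ℕ), Modality F' R' c' →
          Modality (fun z : κ ⊕ κ' → ℂ => Matrix.fromBlocks (F fun i => z (Sum.inl i)) 0 0
            (F' fun i => z (Sum.inr i))) (Sum.inl '' R ∪ Sum.inr '' R') (c + c') ∧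
          Modality (fun z : κ ⊕ κ' → ℂ => Matrix.kronecker (F fun i => z (Sum.inl i))
            (F' fun i => z (Sum.inr i))) (Sum.inl '' R ∪ Sum.inr '' R') (c + c'))) ∧
      (∀ (A₀ : Matrix ι ι' ℂ) (A : κ → Matrix ι ι' ℂ) (c : ℕ),
        MO.Modality (Set.range fun y : κ → ℂ => A₀ + ∑ i, y i • A i) c →
        Modality (fun z : κ → ℂ => A₀ + ∑ i, z i • A i) ∅ c)) ∧
    (∀ (ι ι' : Type) [Fintype ι] [Fintype ι'] [DecidableEq ι] [DecidableEq ι'],
      Modality (fun z : ι × ι' → ℂ => (Matrix.of fun i j => z (i, j) : Matrix ι ι' ℂ)) ∅ 0 ∧
      Modality (fun z : ι × ι → ℂ => (Matrix.of fun i j => z (i, j) - z (j, i) : Matrix ι ι ℂ))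
        ∅ 0) :=
  ⟨MR.main, fun ι ι' τ τ' κ κ' _ _ _ _ _ _ _ _ _ _ _ _ F R => ⟨MR.modality_of_card F R,
    fun _ hY h => MR.modality_of_countable hY h,
    fun _ hF => ⟨fun Φ hΦ => MR.modality_map hF Φ hΦ,
      fun _ _ _ h hH hR hR' => MR.modality_subst hF h hH hR hR',
      fun _ _ _ hF' => ⟨MR.modality_sum hF hF', MR.modality_tensor hF hF'⟩⟩,
    fun _ _ _ h => MR.modality_linear h⟩,
    fun _ _ _ _ _ _ => ⟨MR.modality_generic, MR.modality_skew'⟩⟩

end Pool.Agent.Results.MP_08e617_lc.BoundedModality
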