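import Pool.Agent.L5helper49.LT.Extra

set_option autoImplicit false

/-!
# Singularity of linear polynomial matrices in Lie triple systems

Definitions: `Inp`, `dim`, `mat` are in `Pool.Agent.L5helper60.SR.Defs` (`Inp`: a list of matrices
given as lists of rows of rational numbers, `mat L i`: the `i`-th of them, `dim L`: their size);
`lpol` (the polynomial matrix `x₀ A₀ + x₁ A₁ + …`), `lval` (its value), `vl` (the values given by a
list) and `spn` (the span of the `A_i`) in `Pool.Agent.L5helper49.PW.Main`; `cmb` (a linear
combination) in `Pool.Agent.L5helper49.PW.Opt`; `LocOpt`, `adj` in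
`Pool.Agent.L5helper49.PW.Extra`; `LieTriple`, `nil3` in
`Pool.Agent.L5helper49.LT.Extra`; `PT` (computed in polynomial time) and `InP` (decided in
polynomial time) in `Pool.Agent.Lib.lead.CXDefs`.

Proof. Local search: as long as a change of at most two of the values `x_i` (to values `0, …, N`)
makes the rank of `M ^ n` larger, make it. Let `X` be the value of `M` at the end, let `e` be the
projection to the image of `X ^ n` along its kernel, `g = 1 - e`, and let `L` be the span.

(a) `ad (X) ^ 2` maps `L` to itself. By the decomposition of Fitting each element of `L` is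
`W + [P, X]` where `W` is in the space `L₀` of all elements of `L` which commute with `e`, and `P` is
a commutator of elements of `L`, so that `[P, L]` is in `L`.
(b) The rank of `M ^ n` is the degree of `det (1 - Y M)`. Since no change of two coordinates makes
it larger, the coefficients of higher degree vanish to the order three along each curve `X + ζ Z`.
If `Z` is in `L₀` then the determinant is a product and we get `det (1 - Y g (X + ζ Z)) = 1` modulo
`ζ ^ 3`. By Newton's identities `tr ((g Z) ^ 2) = 0`.
(c) So the Lie triple system `S = g L₀` has the trace form zero. The matrices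
`(P + Z) ⊕ (P - Z)` with `Z` in `S`, `P` in `[S, S]`, are a Lie algebra with trace form zero, and by
the criterion of Cartan the products `u [a, b]` with `a`, `b` in `S` and products `u` of elements of
`S` are nilpotent. Hence the algebra generated by `S` is commutative up to elements which are
invisible for the trace, the nilpotent elements of `S` form a subspace, and adding a nilpotent
element does not change the characteristic polynomial.
(d) Let `f` be a coefficient of `det (1 - Y (X + z))` of degree `r + j`, `r = rank (X ^ n)`, as a
polynomial in `z` in `L`. It is invariant under the conjugations with `1 + ε P`, so the leading form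
of `f` does not change if `[P, X]` is added to `z`. So the leading form is determined by its values
on `L₀`, its degree is at least `j`, and the form of degree `j` is a multiple of the coefficient of
`det (1 - Y g W)` of degree `j`, where `W` is the component of `z` in `L₀`. As `f` vanishes on the
coordinate lines, `g W` is nilpotent for the coordinate vectors `z`, and by (c) for all `z`. Hence
`f` vanishes on `L₀`, and so its leading form and `f` are zero.
-/

namespace Pool.Agent.Results.MP_08e617_lc.LieTriple

open Module Matrix
open Pool.Agent.L5helper60.SR (Inp dim mat)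
open Pool.Agent.L5helper49.PW
open Pool.Agent.L5helper49.LT (LieTriple nil3 lts_singular lts_max triple_of_xyx adj_triple
  loc_opt_triple nil3_triple nil3_loc nil3_det exists_singular)
open Pool.Agent.Lib.CX (PT InP)

universe u

/-- Linear polynomial matrices `M = x₁ A₁ + … + x_k A_k` of size `n` such that the span of the `A_i`
is a Lie triple system: closed under `[X, [Y, Z]]`.

(1) To decide, given rational matrices `A_i`, whether their span is closed under `[X, [Y, Z]]` and
`det M` is the zero polynomial is in P.
(2) A function computed in polynomial time finds natural numbers such that, if the span is closed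
under `[X, [Y, Z]]`, then `det M` is the zero polynomial iff the value of `M` at these numbers is
singular, and no rational values of the variables give a larger rank of `M ^ n`.
(3) Local optima are global optima, over all fields of characteristic zero: let the span be closed
under `[X, [Y, Z]]`, let `S` have more than `n` elements, and assume that no change of at most two
of the coordinates of `x` to values in `S` makes the rank of `M ^ n` larger. Then no `y` gives a
larger rank of `M ^ n`, and if the value of `M` at `x` is singular then all values of `M` are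
singular.
(4) Spaces closed under `[X, [Y, Z]]`: matrix Lie algebras; spaces closed under `X Y X`; for all
families of matrices `B_i`, `C_j` and numbers `ε_i`, `ω_j` with `ε_i ^ 3 = ε_i`, `ω_j ^ 3 = ω_j` the
matrices `X` with `B_i X = ε_i Xᵀ B_i` and `X C_j = ω_j C_j X`.
(5) In (3) it is not enough to consider changes of one coordinate: three nilpotent matrices which
span the matrices of size two with trace zero.
(6) The problem is not a problem about the Lie algebra generated by the `A_i`: there is a space of
singular matrices of size three which is closed under `[X, [Y, Z]]` and a sum of two commutators of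
its elements which is invertible. -/
theorem result :
    (InP fun L : Inp => LieTriple (spn L) ∧ (lpol L).det = 0) ∧
    (∃ sol : Inp → List ℕ, PT sol ∧ ∀ L : Inp, LieTriple (spn L) →
      ((lpol L).det = 0 ↔ (lval L (vl (sol L))).det = 0) ∧
      ∀ y : ℕ → ℚ, (lval L y ^ dim L).rank ≤ (lval L (vl (sol L)) ^ dim L).rank) ∧
    (∀ (K : Type u) [Field K] [CharZero K] (n k : ℕ) (A : Fin k → Matrix (Fin n) (Fin n) K)
      (S : Finset K) (x : Fin k → K), LieTriple (Submodule.span K (Set.range A)) →
      n < S.card → LocOpt 2 A S x → ∀ y, (cmb A y ^ n).rank ≤ (cmb A x ^ n).rank ∧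
        ((cmb A x).det = 0 → (cmb A y).det = 0)) ∧
    (∀ (K : Type u) [Field K] (n : ℕ),
      (∀ 𝓛 : Submodule K (Matrix (Fin n) (Fin n) K), (∀ X ∈ 𝓛, ∀ Y ∈ 𝓛, X * Y - Y * X ∈ 𝓛) →
        LieTriple 𝓛) ∧
      (∀ 𝓛 : Submodule K (Matrix (Fin n) (Fin n) K), (∀ X ∈ 𝓛, ∀ Y ∈ 𝓛, X * Y * X ∈ 𝓛) →
        LieTriple 𝓛) ∧
      ∀ (ι κ : Type) (B : ι → Matrix (Fin n) (Fin n) K) (ε : ι → K)
        (C : κ → Matrix (Fin n) (Fin n) K) (ω : κ → K), (∀ i, ε i ^ 3 = ε i) →
        (∀ j, ω j ^ 3 = ω j) → LieTriple (adj B ε C ω)) ∧
    (LieTriple (Submodule.span ℚ (Set.range nil3)) ∧ (∀ S : Finset ℚ, LocOpt 1 nil3 S 0) ∧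
      (cmb nil3 0).det = 0 ∧ (cmb nil3 ![1, 1, 0]).det ≠ 0) ∧
    ∃ 𝓛 : Submodule ℚ (Matrix (Fin 3) (Fin 3) ℚ), LieTriple 𝓛 ∧ (∀ X ∈ 𝓛, X.det = 0) ∧
      ∃ X ∈ 𝓛, ∃ Y ∈ 𝓛, ∃ Z ∈ 𝓛, ∃ W ∈ 𝓛, ((X * Y - Y * X) + (Z * W - W * Z)).det ≠ 0 := by
  refine ⟨Pool.Agent.L5helper49.LT.inP, ⟨sol 2, pt_sol 2, fun L hL => ⟨lts_singular hL,
    lts_max hL⟩⟩, ?_, fun K _ n => ⟨fun 𝓛 h => Pool.Agent.L5helper49.LT.Lie'.lts h, fun 𝓛 h =>
    triple_of_xyx h, fun ι κ B ε C ω hε hω => adj_triple B ε C ω hε hω⟩,
    ⟨nil3_triple, nil3_loc, nil3_det.1, nil3_det.2⟩, exists_singular⟩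
  intro K _ _ n k A S x hA hS h0 y
  have h1 := fun y => loc_opt_triple hA hS h0 y
  refine ⟨h1 y, fun hx => ?_⟩
  by_contra hy
  rcases n with _ | n
  · rw [det_isEmpty] at hx
    exact one_ne_zero hx
  · have h2 : (cmb A y ^ (n + 1)).rank = n + 1 := by
      rw [rank_of_isUnit _ ((Matrix.isUnit_iff_isUnit_det _).2
        (by rw [det_pow]; exact (isUnit_iff_ne_zero.2 hy).pow _)), Fintype.card_fin]
    have h3 : (cmb A x ^ (n + 1)).rank < n + 1 := by
      by_contra h4
      have h5 : (cmb A x ^ (n + 1)).rank = n + 1 :=
        le_antisymm (Matrix.rank_le_width _) (not_lt.1 h4)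
      have h6 : (cmb A x ^ (n + 1)).det = 0 := by rw [det_pow, hx, zero_pow (by omega)]
      obtain ⟨v, hv, hv'⟩ := Matrix.exists_mulVec_eq_zero_iff.2 h6
      have h7 := (cmb A x ^ (n + 1)).mulVecLin.finrank_range_add_finrank_ker
      rw [Matrix.rank] at h5
      rw [h5, Module.finrank_fin_fun] at h7
      have h8 : LinearMap.ker (cmb A x ^ (n + 1)).mulVecLin = ⊥ :=
        Submodule.finrank_eq_zero.1 (by omega)
      apply hv
      have h9 : v ∈ LinearMap.ker (cmb A x ^ (n + 1)).mulVecLin := hv'
      rwa [h8, Submodule.mem_bot] at h9
    have := h1 y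
    omega

end Pool.Agent.Results.MP_08e617_lc.LieTriple
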