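import Pool.Agent.L5helper49.PW.Extra

set_option autoImplicit false

/-!
# Singularity of linear polynomial matrices in spaces closed under a power map

Definitions: `Inp`, `dim`, `mat` are in `Pool.Agent.L5helper60.SR.Defs` (`Inp`: a list of matrices
given as lists of rows of rational numbers, `mat L i`: the `i`-th of them, `dim L`: their size);
`lpol` (the polynomial matrix `x₀ A₀ + x₁ A₁ + …`), `lval` (its value), `vl` (the values given by a
list) and `spn` (the span of the `A_i`) in `Pool.Agent.L5helper49.PW.Main`; `cmb` (a linear
combination) in `Pool.Agent.L5helper49.PW.Opt`; `PowClosed`, `LocOpt`, `adj`, `corner`, `sk` in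
`Pool.Agent.L5helper49.PW.Extra`; `PT` (computed in polynomial time) and `InP` (decided in
polynomial time) in `Pool.Agent.Lib.lead.CXDefs`.

Fix `m ≥ 2`. We consider matrices `M = x₁ A₁ + … + x_k A_k` whose coefficient matrices span a space
which is closed under the map `X ↦ X ^ m`.

Proof. Local search: as long as a change of at most `m - 1` of the values `x_i` (to values
`0, …, N`) makes the rank of `M ^ n` larger, make it. Let `X` be the value of `M` at the end,
let `e` be the projection to the image of `X ^ n` along its kernel, and let `g = 1 - e`. The rank of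
`M ^ n` is the degree of `det (1 - Y M)`. Since no change of `m - 1` coordinates makes the degree
larger, the coefficients of higher degree vanish to the order `m` along each curve `X + ζ Z`. If
`Z = g Z g` is in the space then the determinant is a product and we get
`det (1 - Y (g X + ζ Z)) = 1` modulo `ζ ^ m`, so the trace of the `(m - 1)`-st power vanishes modulo
`ζ ^ m`, and `tr (Z ^ (m - 1)) = 0`. The derivative of the map `X ↦ X q (X ^ (m - 1))` for a
suitable polynomial `q` shows that `g Z g` is in the space for all `Z` in the space. Hence these
elements are nilpotent: for `S = g Z g` the element `S q (S ^ (m - 1))` is in the space. If `M` is an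
invertible element of the space then `N = M ^ (1 - 2 (m - 1))` is in the space, `g N g` is
nilpotent, and by Jacobi's identity for the minors of the inverse `e M ^ (2 (m - 1) - 1) e` is
singular if `e ≠ 1`. This is false for `M = e X + t Z` and almost all `t`.
-/

namespace Pool.Agent.Results.MP_08e617_lc.PowerClosed

open Module Matrix
open Pool.Agent.L5helper60.SR (Inp dim mat)
open Pool.Agent.L5helper49.PW
open Pool.Agent.Lib.CX (PT InP)

universe u

/-- Linear polynomial matrices `M = x₁ A₁ + … + x_k A_k` such that the span of the `A_i` is closed
under `X ↦ X ^ m`, where `m ≥ 2` is fixed.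

(1) To decide, given rational matrices `A_i`, whether their span is closed under `X ↦ X ^ m` and
`det M` is the zero polynomial is in P.
(2) A function computed in polynomial time finds natural numbers such that, if the span is closed
under `X ↦ X ^ m`, then `det M` is the zero polynomial iff the value of `M` at these numbers is
singular.
(3) Local optima, over all fields of characteristic zero: let the span be closed under `X ↦ X ^ m`,
let `S` have more than `n` elements, and assume that no change of at most `m - 1` of the coordinates
of `x` to values in `S` makes the rank of `M ^ n` larger. If the value of `M` at `x` is singular then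
all values of `M` are singular.
(4) Examples of spaces closed under `X ↦ X ^ m`: for all families of matrices `B_i`, `C_j` and
numbers `ε_i`, `ω_j` with `ε_i ^ m = ε_i`, `ω_j ^ m = ω_j` the matrices `X` with
`B_i X = ε_i Xᵀ B_i` and `X C_j = ω_j C_j X`.
(5) The maximum rank in such spaces is the general problem: for arbitrary `A_i` the matrices
`[[0, A_i], [0, 0]]` span a space of matrices of square zero, and a combination of them has the same
rank as the corresponding combination of the `A_i`.
(6) The noncommutative rank does not solve the problem: for the three skew-symmetric matrices `sk i`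
of size three, `X ^ 3` is a multiple of `X` and `X` is singular for all `X` in the span, but
`dim U ≤ dim (∑ A_i U)` for all subspaces `U`. -/
theorem result :
    (∀ m : ℕ, 2 ≤ m → InP fun L : Inp => PowClosed m (spn L) ∧ (lpol L).det = 0) ∧
    (∀ m : ℕ, 2 ≤ m → ∃ sol : Inp → List ℕ, PT sol ∧ ∀ L : Inp, PowClosed m (spn L) →
      ((lpol L).det = 0 ↔ (lval L (vl (sol L))).det = 0)) ∧
    (∀ (K : Type u) [Field K] [CharZero K] (n k m : ℕ) (A : Fin k → Matrix (Fin n) (Fin n) K)
      (S : Finset K) (x : Fin k → K), 2 ≤ m → PowClosed m (Submodule.span K (Set.range A)) →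
      n < S.card → LocOpt (m - 1) A S x → (cmb A x).det = 0 → ∀ y, (cmb A y).det = 0) ∧
    (∀ (K : Type u) [Field K] (n m : ℕ) (ι κ : Type) (B : ι → Matrix (Fin n) (Fin n) K)
      (ε : ι → K) (C : κ → Matrix (Fin n) (Fin n) K) (ω : κ → K),
      (∀ i, ε i ^ m = ε i) → (∀ j, ω j ^ m = ω j) → PowClosed m (adj B ε C ω)) ∧
    (∀ (K : Type u) [Field K] (n k : ℕ) (A : Fin k → Matrix (Fin n) (Fin n) K) (x : Fin k → K),
      cmb (fun i => corner (A i)) x ^ 2 = 0 ∧
      (cmb (fun i => corner (A i)) x).rank = (cmb A x).rank) ∧
    ((∀ x, (∃ c : ℚ, cmb sk x ^ 3 = c • cmb sk x) ∧ (cmb sk x).det = 0) ∧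
      ∀ U : Submodule ℚ (Fin 3 → ℚ), finrank ℚ U ≤
        finrank ℚ (⨆ i, U.map (sk i).mulVecLin : Submodule ℚ (Fin 3 → ℚ))) := by
  refine ⟨fun m hm => ?_, fun m hm => ?_, ?_, ?_, ?_, fun x => ⟨⟨_, sk_cube x⟩, sk_det x⟩, sk_ims⟩
  · have h := inP (m - 1) (by omega)
    rwa [Nat.sub_add_cancel (by omega)] at h
  · refine ⟨sol (m - 1), pt_sol (m - 1), fun L hL => ?_⟩
    have hL' : Closed (m - 1 + 1) L := by rwa [Nat.sub_add_cancel (by omega)]
    exact hL'.singular (by omega)
  · intro K _ _ n k m A S x hm hA hS h0 hx y
    exact loc_opt hm hA hS h0 hx y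
  · intro K _ n m ι κ B ε C ω hε hω
    exact adj_closed m B ε C ω hε hω
  · intro K _ n k A x
    rw [cmb_corner, rank_corner]
    exact ⟨corner_sq _, rfl⟩

end Pool.Agent.Results.MP_08e617_lc.PowerClosed
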