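import Pool.Agent.L5helper60.SR.Fin
import Pool.Agent.L5helper60.SR.Sharp

set_option autoImplicit false

/-!
# Singularity of symmetric polynomial matrices

Definitions: `Inp`, `dim`, `mat`, `val`, `pol`, `Witt` are in `Pool.Agent.L5helper60.SR.Defs`;
`vl`, `ims` in `Pool.Agent.L5helper60.SR.Mat`; `Inst` in `Pool.Agent.L5helper60.SR.Fin`; `ex` in
`Pool.Agent.L5helper60.SR.Sharp`; `PT` (computed in polynomial time) and `InP` (decided in
polynomial time) in `Pool.Agent.Lib.lead.CXDefs`.

We consider symmetric matrices `A₀ + x₁ A₁ + … + x_k A_k` where `A₀` is an arbitrary constant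
symmetric matrix and the other coefficient matrices are symmetric matrices in which all totally
isotropic subspaces have dimension at most one modulo the kernel, for instance arbitrary symmetric
matrices of rank at most three. No assumption relates the matrices to each other.

Proof. For values `x` of the variables let `M` be the matrix, and consider
`Φ (x) = ∑ dim (ker M ⊓ ker A_i)` together with `dim ker M`. Local search: as long as a change of at
most two variables (to values in a set of polynomially many numbers) makes the potential
`dim ker M + ∑ dim (ker M ⊓ ker A_i)` smaller, make this change. A matrix which admits no such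
change has maximum rank: the restrictions of the forms `A_i` to the kernel of `M` and the paths
starting in the kernel give subspaces `U`, `W` with `A_i U ⊆ W` and
`dim U - dim W = dim ker M`. The proof uses first and second order perturbation, and this is the
place where the condition on isotropic subspaces is used.
-/

namespace Pool.Agent.Results.MP_08e617_lc.SymmetricForms

open Module
open Pool.Agent.L5helper60.SR
open Pool.Agent.Lib.CX (PT InP)

universe u

/-- Symmetric polynomial matrices `A₀ + x₁ A₁ + … + x_k A_k`, where `A₀` is arbitrary.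

(1) The problem, given symmetric matrices `A₀`, …, `A_k` over the rational numbers where `A₁`, …,
`A_k` have rank at most three, to decide whether `det (A₀ + x₁ A₁ + … + x_k A_k)` is the zero
polynomial is in P.
(2) There is a function computed in polynomial time which, given symmetric matrices `A₀`, …, `A_k`
such that the totally isotropic subspaces of `A₁`, …, `A_k` have dimension at most one modulo the
kernel, finds natural numbers such that no other rational values of the variables make the rank
larger; the polynomial matrix is singular iff this single matrix is singular.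
(3) The condition on isotropic subspaces holds for symmetric matrices of rank at most three over
all fields, and for rational symmetric matrices `M` such that `M` or `-M` is positive semidefinite
on a hyperplane.
(4) Over a field of characteristic not two the maximum rank is the minimum over all subspaces `U` of
`n + dim (∑ A_i U) - dim U` and it is attained with values of the variables in any given set of more
than `(k + 2) (n + 1)` elements. (The inequality holds for arbitrary matrices.)
(5) This formula for the maximum rank is not correct for symmetric matrices of rank four: for three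
symmetric `6 × 6` matrices of rank at most four the left side is at most four and the right side is
six, since `dim U ≤ dim (∑ A_i U)` for all `U`. -/
theorem result :
    (InP fun L : Inp => Inst L ∧ (pol L).det = 0) ∧
    (∃ sol : Inp → List ℕ, PT sol ∧ ∀ L : Inp, (∀ i, (mat L i).IsSymm) →
      (∀ i, 1 ≤ i → Witt (mat L i)) →
      (∀ y : ℕ → ℚ, (val L y).rank ≤ (val L fun i => ((sol L).getD i 0 : ℕ)).rank) ∧
      ((pol L).det = 0 ↔ (val L fun i => ((sol L).getD i 0 : ℕ)).rank < dim L)) ∧
    ((∀ (K : Type u) [Field K] (n : ℕ) (M : Matrix (Fin n) (Fin n) K), M.IsSymm → M.rank ≤ 3 →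
        Witt M) ∧
      ∀ (n : ℕ) (M : Matrix (Fin n) (Fin n) ℚ), M.IsSymm → ∀ w : Fin n → ℚ,
        ((∀ v, w ⬝ᵥ v = 0 → 0 ≤ v ⬝ᵥ M.mulVec v) ∨ ∀ v, w ⬝ᵥ v = 0 → v ⬝ᵥ M.mulVec v ≤ 0) →
        Witt M) ∧
    (∀ (K : Type u) [Field K] (n k : ℕ) (A₀ : Matrix (Fin n) (Fin n) K)
      (A : Fin k → Matrix (Fin n) (Fin n) K),
      (∀ (x : Fin k → K) (U : Submodule K (Fin n → K)),
        (vl A₀ A x).rank + finrank K U ≤ n + finrank K (ims A₀ A U)) ∧
      ((2 : K) ≠ 0 → A₀.IsSymm → (∀ i, (A i).IsSymm ∧ Witt (A i)) →
        ∀ S : Finset K, (k + 2) * (n + 1) < S.card →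
        ∃ x : Fin k → K, (∀ i, x i ∈ S) ∧ ∃ U : Submodule K (Fin n → K),
          (vl A₀ A x).rank + finrank K U = n + finrank K (ims A₀ A U))) ∧
    ((∀ i, (ex i).IsSymm ∧ (ex i).rank ≤ 4) ∧
      ∀ (x : Fin 3 → ℚ) (U : Submodule ℚ (Fin 6 → ℚ)),
        (vl 0 ex x).rank ≤ 4 ∧ finrank ℚ U ≤ finrank ℚ (ims 0 ex U)) := by
  refine ⟨inP, ⟨sol, pt_sol Pool.Agent.Lib.CX.PT.id, fun L h1 h2 => ?_⟩, ⟨fun K _ n M h1 h2 => witt_of_rank h1 h2,
    fun n M h1 w h2 => ?_⟩, fun K _ n k A₀ A => ⟨fun x U => vl_rank_le U x,
      fun hK h0 hA S hS => formula hK S hS h0 hA⟩, fun i => ⟨ex_symm i, ex_rank i⟩,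
      fun x U => ⟨vl_ex_rank x, le_ims U⟩⟩
  · have hg : Good L := ⟨h1, h2⟩
    exact ⟨hg.max, hg.singular⟩
  · rcases h2 with h2 | h2
    · exact witt_of_hyperplane h1 w h2
    · refine witt_neg (witt_of_hyperplane h1.neg w fun v hv => ?_)
      rw [Matrix.neg_mulVec, dotProduct_neg]
      exact neg_nonneg.2 (h2 v hv)

end Pool.Agent.Results.MP_08e617_lc.SymmetricForms
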